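import Pool.Agent.Helper7.BM.Goals

/-!
# Project BM (MP_57df85_nt), packet LAM: the linear form
-/

set_option autoImplicit false

open Finset

namespace Pool.Agent.Helper24.BM

open Pool.Agent.Helper7.BM

/-- **LAM** -/
theorem lam : StmtLAM := by
  intro p q a b hp hpq ha hb hs
  have hp1 : (1 : ℝ) < p := by exact_mod_cast (by omega : 1 < p)
  have hp2 : (2 : ℝ) ≤ p := by exact_mod_cast hp
  have hpq' : (p : ℝ) < q := by exact_mod_cast hpq
  have hq1 : (1 : ℝ) < q := hp1.trans hpq'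
  set N : ℝ := ((sg p a : ℕ) : ℝ) with hN
  have hP : (p : ℝ) ^ (a + 1) = 1 + (p - 1) * N := by
    have h := geom_sum_mul (p : ℝ) (a + 1)
    have h2 : N = ∑ i ∈ range (a + 1), (p : ℝ) ^ i := by
      rw [hN, sg]
      push_cast
      rfl
    rw [h2]
    linarith
  have hQ : (q : ℝ) ^ (b + 1) = 1 + (q - 1) * N := by
    have h := geom_sum_mul (q : ℝ) (b + 1)
    have h2 : N = ∑ i ∈ range (b + 1), (q : ℝ) ^ i := by
      rw [hN, hs, sg]
      push_cast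
      rfl
    rw [h2]
    linarith
  have hNpos : 0 < N := by
    have h1 : 1 < (p : ℝ) ^ (a + 1) := one_lt_pow₀ hp1 (by omega)
    by_contra hc
    have h2 : ((p : ℝ) - 1) * N ≤ 0 := mul_nonpos_of_nonneg_of_nonpos (by linarith) (by linarith)
    linarith
  set P : ℝ := (p : ℝ) ^ (a + 1) with hPdef
  set Q : ℝ := (q : ℝ) ^ (b + 1) with hQdef
  have hP4 : 2 ≤ P := by
    calc (2 : ℝ) ≤ p := hp2
      _ = (p : ℝ) ^ 1 := (pow_one _).symm
      _ ≤ P := pow_le_pow_right₀ hp1.le (by omega)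
  have hPQ : P ≤ Q := by
    rw [hP, hQ]
    have := mul_le_mul_of_nonneg_right (by linarith : (p : ℝ) - 1 ≤ q - 1) hNpos.le
    linarith
  have hP0 : 0 < P := by linarith
  have hQ0 : 0 < Q := by linarith
  have hPm : 0 < P - 1 := by linarith
  have hQm : 0 < Q - 1 := by linarith
  have hform : ((b : ℝ) + 1) * Real.log q - ((a : ℝ) + 1) * Real.log p -
      Real.log (((q : ℝ) - 1) / ((p : ℝ) - 1)) =
      Real.log ((1 - P⁻¹) / (1 - Q⁻¹)) := by
    have h1 : ((b : ℝ) + 1) * Real.log q = Real.log Q := by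
      rw [hQdef, Real.log_pow]
      push_cast
      ring
    have h2 : ((a : ℝ) + 1) * Real.log p = Real.log P := by
      rw [hPdef, Real.log_pow]
      push_cast
      ring
    have h3 : ((q : ℝ) - 1) / ((p : ℝ) - 1) = (Q - 1) / (P - 1) := by
      have hp0 : (p : ℝ) - 1 ≠ 0 := by linarith
      have e1 : Q - 1 = (q - 1) * N := by rw [hQ]; ring
      have e2 : P - 1 = (p - 1) * N := by rw [hP]; ring
      rw [e1, e2, mul_div_mul_right _ _ hNpos.ne']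
    have h4 : (1 - P⁻¹) / (1 - Q⁻¹) = Q / P / ((Q - 1) / (P - 1)) := by
      have e1 : 1 - P⁻¹ = (P - 1) / P := by field_simp
      have e2 : 1 - Q⁻¹ = (Q - 1) / Q := by field_simp
      rw [e1, e2]
      field_simp
    rw [h1, h2, h3, h4, Real.log_div (div_pos hQ0 hP0).ne' (div_pos hQm hPm).ne',
      Real.log_div hQ0.ne' hP0.ne']
  rw [hform]
  have hPi : P⁻¹ ≤ 1 / 2 := by
    rw [inv_eq_one_div]
    exact one_div_le_one_div_of_le (by norm_num) hP4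
  have hPi0 : 0 < P⁻¹ := inv_pos.2 hP0
  have hQi0 : 0 < Q⁻¹ := inv_pos.2 hQ0
  have hQP : Q⁻¹ ≤ P⁻¹ := inv_anti₀ hP0 hPQ
  have hd : 0 < 1 - Q⁻¹ := by linarith
  have hx1 : (1 - P⁻¹) / (1 - Q⁻¹) ≤ 1 := by
    rw [div_le_one hd]
    linarith
  have hx2 : 1 - P⁻¹ ≤ (1 - P⁻¹) / (1 - Q⁻¹) := by
    rw [le_div_iff₀ hd]
    nlinarith
  have hpos : 0 < 1 - P⁻¹ := by linarith
  have hlog1 : Real.log ((1 - P⁻¹) / (1 - Q⁻¹)) ≤ 0 :=
    Real.log_nonpos (div_nonneg hpos.le hd.le) hx1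
  have hlog2 : Real.log (1 - P⁻¹) ≤ Real.log ((1 - P⁻¹) / (1 - Q⁻¹)) :=
    Real.log_le_log hpos hx2
  have hlog3 : 1 - (1 - P⁻¹)⁻¹ ≤ Real.log (1 - P⁻¹) := Real.one_sub_inv_le_log_of_pos hpos
  have hlast : (1 - P⁻¹)⁻¹ ≤ 1 + 2 * P⁻¹ := by
    rw [inv_eq_one_div, div_le_iff₀ hpos]
    nlinarith
  have h2P : 2 / P = 2 * P⁻¹ := div_eq_mul_inv _ _
  rw [abs_of_nonpos hlog1, h2P]
  linarith

end Pool.Agent.Helper24.BM
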